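import Pool.Agent.Work.MP_66343f_al.Sep3

/-!
# MP_66343f_al: groups with a large action preform free groups

A finitely generated group `G` with an action on a set `X` and a proper invariant ideal of subsets
of `X` (containing the finite sets) such that, for every finite `T`, the points whose orbit under the
pointwise stabiliser of `T` is in the ideal form a set in the ideal, has infinite girth: it preforms
all free groups of large finite rank. In particular this holds if the pointwise stabiliser of every
finite set fixes no further point (`G` separates `X` in the sense of Abert).
-/

set_option autoImplicit false

namespace Pool.Agent.Results.MP_66343f_al.LargeActions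

open Pool.Agent.Work.MP_66343f_al

theorem result {G X : Type} [Group G] [Group.FG G] (ρ : G →* Equiv.Perm X) (𝓘 : Set (Set X))
    (h : LargeAction ρ 𝓘) :
    (∃ m0 : ℕ, ∀ m ≥ m0, Preforms G (FreeGroup (Fin m))) ∧ DistLE 2 G (FreeGroup (Fin 2)) :=
  sep_component ρ 𝓘 h

end Pool.Agent.Results.MP_66343f_al.LargeActions
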