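import Pool.Agent.Work.MP_66343f_fd.Final

/-!
# MP_66343f_al: groups with large actions on finite sets preform free groups

Let `G` be a finitely generated group which has, for every `N`, an action on a finite set `X` with an
invariant, monotone and subadditive size `μ` of the subsets of `X`, `μ(X) ≥ N`, such that for every
`T ⊆ X` with at most `N` points the points whose orbit under the pointwise stabiliser of `T` has size
less than `N` form a set of size at most `c(|T|)`.  Then `G` has infinite girth: it preforms all free
groups of large finite rank.

This holds for instance if the finite quotients of `G` have chief factors `Alt(m) ^ k` with `m`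
unbounded (`μ` the number of points, lemma `Pool.FDA.p_EXA`), or if `G` has images in the groups
`GL_n(q)` which contain `SL_n(q)` with `n` unbounded (`μ` the dimension of the span, lemma
`Pool.FDA.p_EXL`).
-/

set_option autoImplicit false

namespace Pool.Agent.Results.MP_66343f_al.LargeFiniteActions

open Pool.Agent.Work.MP_66343f_al

theorem result {G : Type} [Group G] [Group.FG G] (c : ℕ → ℕ)
    (h : Pool.FDA.LargeFiniteActions G c) :
    (∃ m0 : ℕ, ∀ m ≥ m0, Preforms G (FreeGroup (Fin m))) ∧ DistLE 2 G (FreeGroup (Fin 2)) :=
  Pool.FDA.large_finite_actions c h

end Pool.Agent.Results.MP_66343f_al.LargeFiniteActions
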