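import Pool.Agent.Work.MP_66343f_fd.Final

/-!
# MP_66343f_al: groups with quotients containing large direct products of conjugate subgroups

Let `G` be a finitely generated group which has, for every `n`, a quotient `Q n` with a non-trivial
subgroup `A n` which has at least `n` conjugates (finitely or infinitely many), such that the subgroup
generated by the conjugates of `A n` is their direct product.  For instance, `G` has finite quotients
with chief factors `S ^ k`, `S` a non-abelian simple group, with `k` unbounded; or `G` maps onto wreath
products of non-trivial groups over sets of unbounded size.  Then `G` lies in the connected component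
of the free group: it is at distance at most three from some non-abelian free group, and at distance at
most four from the free group of rank two.
-/

set_option autoImplicit false

namespace Pool.Agent.Results.MP_66343f_al.ProductsInQuotients

open Pool.Agent.Work.MP_66343f_al

theorem result {G : Type} [Group G] [Group.FG G] (Q : ℕ → Type) [∀ n, Group (Q n)]
    (f : ∀ n, G →* Q n) (hf : ∀ n, Function.Surjective (f n)) (A : ∀ n, Subgroup (Q n))
    (hA : ∀ n, A n ≠ ⊥) (hcard : ∀ n : ℕ, (n : ℕ∞) ≤ (Set.range (cj (A n))).encard)
    (h : ∀ n, SumOfConjugates (A n)) :
    (∃ m ≥ 2, DistLE 3 G (FreeGroup (Fin m))) ∧ DistLE 4 G (FreeGroup (Fin 2)) :=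
  Pool.FDA.products_in_quotients Q f hf A hA hcard h

end Pool.Agent.Results.MP_66343f_al.ProductsInQuotients
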