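import Pool.Agent.Work.MP_66343f_al.Main2

/-!
# MP_66343f_al: groups with a virtually solvable quotient that is not virtually nilpotent

Every finitely generated group `G` which has a virtually solvable quotient `Q` that is not
virtually nilpotent lies in the connected component of the free group: it is at distance at most
three from some non-abelian free group, and at distance at most four from the free group of rank two.
-/

set_option autoImplicit false

namespace Pool.Agent.Results.MP_66343f_al.VirtuallySolvable

open Pool.Agent.Work.MP_66343f_al

theorem result {G Q : Type} [Group G] [Group.FG G] [Group Q] (f : G →* Q)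
    (hf : Function.Surjective f) (S : Subgroup Q) (hS : S.FiniteIndex)
    (hs : Group.IsSolvable S) (hn : ¬ VNil Q) :
    (∃ m ≥ 2, DistLE 3 G (FreeGroup (Fin m))) ∧ DistLE 4 G (FreeGroup (Fin 2)) :=
  vsolv_component f hf S hS hs hn

end Pool.Agent.Results.MP_66343f_al.VirtuallySolvable
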